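import Pool.Agent.Y570.EO.Fin

/-!
# EOL forms all of whose languages are context-free

Q1 of MP_1e6486_lc asks whether an EOL form can generate exactly an s-grammatical family which
properly contains the family of linear languages. The starting file `NoSuperlinear` shows that it
cannot. Here it is shown that there is not even an EOL form whose family lies between a nonlinear
s-grammatical family and the family of all context-free languages. The reason is a property of single
languages: if the family of an EOL form contains a nonlinear language in which no nonempty word
arises from another word by deleting a factor (for example `{a^n b c^n d^m e f^m : n, m ≥ 0}`), then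
it contains a language which is not context-free.
-/

set_option autoImplicit false

namespace Pool.Agent.Results.MP_1e6486_lc.Sandwich

open Pool.Agent.Helper230.EForms Pool.Agent.Y570.EO

/-- (1) If the family of an EOL form `F` contains a nonlinear language `L` such that no nonempty word
`l r` of `L` arises from another word `l y r` of `L` by deleting a factor, then it contains a language
which is not context-free.

(2) In particular this is so if `F` generates, up to the empty word, the language
`{a^n b c^n d^m e f^m : n, m ≥ 0}` for some different letters `a, …, f`.

(3) If the family of an EOL form lies between the s-grammatical family of a context-free grammar form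
`G` and the family of context-free languages, then the s-grammatical family of `G` consists of linear
languages.

(4) If the s-grammatical family of `G` does not consist of linear languages (whether it contains all
linear languages or not) then no EOL form has this family.

(5) (Q1) If the s-grammatical family of `G` properly contains the family of linear languages, then no
EOL form has this family. -/
theorem result :
    (∀ F : Gram, IsEOL F → ∀ L ∈ eolFamily F, L ∉ LIN →
      (∀ l y r : List ℕ, l ++ y ++ r ∈ L → l ++ r ∈ L → l ++ r ≠ [] → y = []) →
      ¬ FamLE (eolFamily F) CF) ∧
    (∀ F : Gram, IsEOL F → ∀ l : Fin 6 → ℕ, Function.Injective l → ∀ L ∈ eolFamily F,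
      L \ {[]} = {w | ∃ n m, w = W6 l n m} → ¬ FamLE (eolFamily F) CF) ∧
    (∀ G F : Gram, IsCF G → IsEOL F → FamLE (sFamily G) (eolFamily F) →
      FamLE (eolFamily F) CF → FamLE (sFamily G) LIN) ∧
    (∀ G : Gram, IsCF G → ¬ FamLE (sFamily G) LIN →
      ¬ ∃ H, IsEOL H ∧ FamEq (eolFamily H) (sFamily G)) ∧
    (∀ G : Gram, IsCF G → FamLE LIN (sFamily G) → ¬ FamLE (sFamily G) LIN →
      ¬ ∃ H, IsEOL H ∧ FamEq (eolFamily H) (sFamily G)) := by
  have h4 : ∀ G : Gram, IsCF G → ¬ FamLE (sFamily G) LIN →
      ¬ ∃ H, IsEOL H ∧ FamEq (eolFamily H) (sFamily G) := by
    rintro G hG hn ⟨H, hH, h1, h2⟩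
    refine hn (two hG hH h2 ?_)
    intro L hL
    obtain ⟨L', hL', e1⟩ := h1 L hL
    obtain ⟨L'', hL'', e2⟩ := sFamily_CF G L' hL'
    exact ⟨L'', hL'', e1.trans e2⟩
  exact ⟨fun F hF L hL hnl hc => one hF hL hnl hc,
    fun F hF l hl L hL hL1 => three hF hl hL hL1,
    fun G F hG hF h2 h1 => two hG hF h2 h1, h4, fun G hG _ hn => h4 G hG hn⟩

end Pool.Agent.Results.MP_1e6486_lc.Sandwich
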